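import Pool.Agent.Lib.MP_5349a4_pr.M.Iface1
import Pool.Agent.Lib.MP_5349a4_pr.M.Base

/-!
RES (P3): the parts of the Poisson process inside and outside a measurable set are independent.
-/

set_option autoImplicit false
open MeasureTheory Set
open scoped ENNReal NNReal

namespace Pool.Agent.Lib.MP_5349a4_pr.H23

theorem restr_map (hmr : MRestrStatement) {E : Type} [MeasurableSpace E] {B : Set E}
    (hB : MeasurableSet B) :
    ∃ r : Cfg E → Cfg E, Measurable r ∧ ∀ ω, pt (r ω) = pt ω ∩ B := by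
  obtain ⟨r, hr, hpt⟩ := hmr Unit E {q : Unit × E | q.2 ∈ B} (measurable_snd hB)
  refine ⟨fun ω => r ((), ω), hr.comp (measurable_const.prodMk measurable_id), fun ω => ?_⟩
  rw [hpt]
  rfl

theorem res1 (hsuper : SuperStatement) (hprob : ProbStatement) (hmr : MRestrStatement)
    {E : Type} [MeasurableSpace E] (ρ : Measure E) [IsFiniteMeasure ρ] {A : Set E}
    (hA : MeasurableSet A) (f : Set E → ℝ≥0∞) (hf : CM f) :
    ∫⁻ ω, f (pt ω ∩ A) ∂PL ρ = ∫⁻ ω, f (pt ω) ∂PL (ρ.restrict A) := by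
  obtain ⟨r, hr, hpt⟩ := restr_map hmr hA
  have hcm : CM (fun P => f (P ∩ A)) := by
    have h : Measurable fun ω : Cfg E => f (pt (r ω)) :=
      (show Measurable fun ω : Cfg E => f (pt ω) from hf).comp hr
    unfold CM
    simpa only [hpt] using h
  have hsplit : ρ = ρ.restrict A + ρ.restrict Aᶜ := (Measure.restrict_add_restrict_compl hA).symm
  have h0 := hsuper E (ρ.restrict A) (ρ.restrict Aᶜ) _ hcm
  rw [← hsplit] at h0
  rw [h0]
  have h1 := (hprob E (ρ.restrict A)).2 Aᶜ hA.compl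
    (by rw [Measure.restrict_apply hA.compl]; simp)
  have h2 := (hprob E (ρ.restrict Aᶜ)).2 A hA (by rw [Measure.restrict_apply hA]; simp)
  have hp := (hprob E (ρ.restrict Aᶜ)).1
  apply lintegral_congr_ae
  filter_upwards [h1] with ω hω
  have h3 : ∫⁻ ω', f ((pt ω ∪ pt ω') ∩ A) ∂PL (ρ.restrict Aᶜ)
      = ∫⁻ _ω', f (pt ω) ∂PL (ρ.restrict Aᶜ) := by
    apply lintegral_congr_ae
    filter_upwards [h2] with ω' hω'
    congr 1
    ext e
    constructor
    · rintro ⟨h | h, hA'⟩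
      · exact h
      · exact absurd hA' (hω' e h)
    · intro h
      exact ⟨Or.inl h, not_not.1 (hω e h)⟩
  rw [h3]
  simp

theorem res (hsuper : SuperStatement) (hprob : ProbStatement) (hmr : MRestrStatement) :
    ResStatement := by
  intro E _ ρ _ A hA
  refine ⟨fun f hf => res1 hsuper hprob hmr ρ hA f hf, ?_⟩
  intro f hf
  obtain ⟨r, hr, hpt⟩ := restr_map hmr hA
  obtain ⟨r', hr', hpt'⟩ := restr_map hmr hA.compl
  have hcm : CM (fun P => f (P ∩ A) (P ∩ Aᶜ)) := by
    have h : Measurable fun ω : Cfg E => f (pt (r ω)) (pt (r' ω)) :=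
      hf.comp (hr.prodMk hr')
    unfold CM
    simpa only [hpt, hpt'] using h
  have hsplit : ρ = ρ.restrict A + ρ.restrict Aᶜ := (Measure.restrict_add_restrict_compl hA).symm
  have h0 := hsuper E (ρ.restrict A) (ρ.restrict Aᶜ) _ hcm
  rw [← hsplit] at h0
  simp only [Set.sdiff_eq]
  rw [h0]
  have h1 := (hprob E (ρ.restrict A)).2 Aᶜ hA.compl
    (by rw [Measure.restrict_apply hA.compl]; simp)
  have h2 := (hprob E (ρ.restrict Aᶜ)).2 A hA (by rw [Measure.restrict_apply hA]; simp)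
  have hp := (hprob E (ρ.restrict Aᶜ)).1
  have hp' := (hprob E ρ).1
  -- left side
  have hL : ∫⁻ ω, ∫⁻ ω', f ((pt ω ∪ pt ω') ∩ A) ((pt ω ∪ pt ω') ∩ Aᶜ) ∂PL (ρ.restrict Aᶜ)
        ∂PL (ρ.restrict A)
      = ∫⁻ ω, ∫⁻ ω', f (pt ω) (pt ω') ∂PL (ρ.restrict Aᶜ) ∂PL (ρ.restrict A) := by
    apply lintegral_congr_ae
    filter_upwards [h1] with ω hω
    apply lintegral_congr_ae
    filter_upwards [h2] with ω' hω'
    have e1 : (pt ω ∪ pt ω') ∩ A = pt ω := by
      ext e
      constructor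
      · rintro ⟨h | h, hA'⟩
        · exact h
        · exact absurd hA' (hω' e h)
      · intro h
        exact ⟨Or.inl h, not_not.1 (hω e h)⟩
    have e2 : (pt ω ∪ pt ω') ∩ Aᶜ = pt ω' := by
      ext e
      constructor
      · rintro ⟨h | h, hA'⟩
        · exact absurd hA' (hω e h)
        · exact h
      · intro h
        exact ⟨Or.inr h, hω' e h⟩
    rw [e1, e2]
  rw [hL]
  -- right side
  have hin : ∀ ω : Cfg E, ∫⁻ ω', f (pt ω ∩ A) (pt ω' ∩ Aᶜ) ∂PL ρ
      = ∫⁻ ω', f (pt ω ∩ A) (pt ω') ∂PL (ρ.restrict Aᶜ) := by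
    intro ω
    have hc : CM (f (pt ω ∩ A)) := by
      have h : Measurable fun ω' : Cfg E => f (pt (r ω)) (pt ω') :=
        hf.comp (measurable_const.prodMk measurable_id)
      unfold CM
      simpa only [hpt] using h
    exact res1 hsuper hprob hmr ρ hA.compl _ hc
  simp_rw [hin]
  have hg : CM (fun P => ∫⁻ ω', f P (pt ω') ∂PL (ρ.restrict Aᶜ)) := by
    unfold CM
    exact Measurable.lintegral_prod_right' (f := fun q : Cfg E × Cfg E => f (pt q.1) (pt q.2)) hf
  exact (res1 hsuper hprob hmr ρ hA _ hg).symm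

end Pool.Agent.Lib.MP_5349a4_pr.H23
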