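import Pool.Agent.Lib.MP_5349a4_pr.M.Iface1
import Pool.Agent.Lib.MP_5349a4_pr.M.Base

/-!
SEC (2.4): the second moment of the cluster size.
-/

set_option autoImplicit false
open MeasureTheory Set
open scoped ENNReal NNReal

namespace Pool.Agent.Lib.MP_5349a4_pr.H23

theorem tp_symm (hclb : ClbStatement) {E : Type} [MeasurableSpace E] (ρ : Measure E)
    (adj : E → E → Prop) (hs : ∀ a b, adj a b → adj b a) (x y : E) :
    tp adj ρ x y = tp adj ρ y x := by
  unfold tp
  congr 1
  ext ω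
  exact (hclb E adj (pt ω) (pt ω) x y).2.2.2.1 hs

theorem tsum_insert_le {E : Type} (F : E → ℝ≥0∞) (P : Set E) (p : E) :
    ∑' q : (insert p P : Set E), F q ≤ F p + ∑' q : P, F q := by
  rw [Set.insert_eq]
  refine (ENNReal.tsum_union_le F {p} P).trans ?_
  rw [tsum_singleton p F]

theorem cnt_insert_le (hclb : ClbStatement) {E : Type} (adj : E → E → Prop) (P : Set E) (x p : E) :
    cnt adj (insert p P) x ≤ (1 + cnt adj P x) + (1 + cnt adj P p) := by
  unfold cnt
  have h1 : ∑' q : (insert p P : Set E), ind (Con adj (insert p P) x q)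
      ≤ 1 + ∑' q : P, ind (Con adj (insert p P) x q) :=
    (tsum_insert_le (fun q : E => ind (Con adj (insert p P) x q)) P p).trans
      (add_le_add (ind_le_one _) le_rfl)
  have h3 : ∑' q : P, ind (Con adj (insert p P) x q)
      ≤ ∑' q : P, ind (Con adj P x q) + ∑' q : P, ind (Con adj P p q) := by
    rw [← ENNReal.tsum_add]
    refine ENNReal.tsum_le_tsum fun q => ?_
    refine (ind_mono ?_).trans (ind_or_le (Con adj P x q) (Con adj P p q))
    intro h
    rcases (hclb E adj P P x p).2.2.2.2.2 (fun a => adj a q) h with h | h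
    · exact Or.inl h
    · exact Or.inr h.2
  calc ∑' q : (insert p P : Set E), ind (Con adj (insert p P) x q)
      ≤ 1 + (∑' q : P, ind (Con adj P x q) + ∑' q : P, ind (Con adj P p q)) :=
        h1.trans (add_le_add le_rfl h3)
    _ = (1 + ∑' q : P, ind (Con adj P x q)) + ∑' q : P, ind (Con adj P p q) := by ring
    _ ≤ _ := add_le_add le_rfl le_add_self

theorem two_step {E : Type} [MeasurableSpace E] (ρ : Measure E) [IsFiniteMeasure ρ]
    (t : E × E → ℝ≥0∞) (ht : Measurable t) (X : ℝ≥0∞) (hX : ∀ b, ∫⁻ y, t (b, y) ∂ρ ≤ X) (x : E) :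
    Measurable (fun p => t (x, p)) ∧ Measurable (fun p => ∫⁻ b, t (x, b) * t (b, p) ∂ρ) ∧
      ∫⁻ p, ∫⁻ b, t (x, b) * t (b, p) ∂ρ ∂ρ ≤ X * X := by
  have hmx : Measurable fun p : E => t (x, p) := ht.comp (measurable_const.prodMk measurable_id)
  have hbm : ∀ b : E, Measurable fun p : E => t (b, p) := fun b =>
    ht.comp (measurable_const.prodMk measurable_id)
  have ha1 : Measurable fun q : E × E => t (x, q.2) := hmx.comp measurable_snd
  have ha2 : Measurable fun q : E × E => t (q.2, q.1) :=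
    ht.comp (measurable_snd.prodMk measurable_fst)
  have ha : Measurable fun q : E × E => t (x, q.2) * t (q.2, q.1) := ha1.mul ha2
  refine ⟨hmx, Measurable.lintegral_prod_right' ha, ?_⟩
  rw [lintegral_lintegral_swap (f := fun p b => t (x, b) * t (b, p)) ha.aemeasurable]
  calc ∫⁻ b, ∫⁻ p, t (x, b) * t (b, p) ∂ρ ∂ρ
      = ∫⁻ b, t (x, b) * ∫⁻ p, t (b, p) ∂ρ ∂ρ := by
        refine lintegral_congr fun b => ?_
        exact lintegral_const_mul (t (x, b)) (hbm b)
    _ ≤ ∫⁻ b, t (x, b) * X ∂ρ := lintegral_mono fun b => mul_le_mul_right (hX b) _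
    _ = (∫⁻ b, t (x, b) ∂ρ) * X := lintegral_mul_const X hmx
    _ ≤ X * X := mul_le_mul_left (hX x) _

theorem arith {T G X : ℝ≥0∞} (h1 : 1 ≤ X) (hT : T ≤ X) (hG : G ≤ X * X) :
    X * (T + G) + X * (T + G) ≤ 4 * X ^ 3 := by
  have hXX : X ≤ X * X := by
    calc X = X * 1 := (mul_one X).symm
      _ ≤ X * X := mul_le_mul_right h1 _
  have h3 : X * (T + G) ≤ X * (X * X + X * X) :=
    mul_le_mul_right (add_le_add (hT.trans hXX) hG) _
  calc X * (T + G) + X * (T + G)
      ≤ X * (X * X + X * X) + X * (X * X + X * X) := add_le_add h3 h3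
    _ = 4 * X ^ 3 := by ring

theorem fin_int {E : Type} [MeasurableSpace E] (ρ : Measure E) (F T G : E → ℝ≥0∞)
    (hT : Measurable T) (hG : Measurable G) (X : ℝ≥0∞) (h1 : 1 ≤ X) (hTi : ∫⁻ p, T p ∂ρ ≤ X)
    (hGi : ∫⁻ p, G p ∂ρ ≤ X * X) (hF : ∀ p, F p ≤ X * (T p + G p) + X * (T p + G p)) :
    ∫⁻ p, F p ∂ρ ≤ 4 * X ^ 3 := by
  refine (lintegral_mono hF).trans ?_
  have hTG : Measurable fun p : E => T p + G p := hT.add hG
  have hm : Measurable fun p : E => X * (T p + G p) := hTG.const_mul X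
  rw [lintegral_add_left hm, lintegral_const_mul X hTG, lintegral_add_left hT]
  exact arith h1 hTi hGi

theorem term_le (hpair : PairStatement) (hclb : ClbStatement) (hconm : ConMStatement)
    {E : Type} [MeasurableSpace E] [StandardBorelSpace E] (ρ : Measure E) [IsFiniteMeasure ρ]
    [NullSingletonClass ρ] (adj : E → E → Prop) (X : ℝ≥0∞) (x : E) (hadj : MAdj adj)
    (hs : ∀ a b, adj a b → adj b a) (hX : ∀ b, 1 + ∫⁻ y, tp adj ρ b y ∂ρ ≤ X) (p : E) :
    ∫⁻ ω, ind (Con adj (insert p (pt ω)) x p) * cnt adj (insert p (pt ω)) x ∂PL ρ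
      ≤ X * (tp adj ρ x p + ∫⁻ b, tp adj ρ x b * tp adj ρ b p ∂ρ)
        + X * (tp adj ρ x p + ∫⁻ b, tp adj ρ x b * tp adj ρ b p ∂ρ) := by
  obtain ⟨hm1, -, hm3, hm4⟩ := hconm E adj hadj
  have hcnt : ∀ z : E, Measurable fun ω : Cfg E => cnt adj (pt ω) z := fun z =>
    hm4.comp (measurable_const.prodMk measurable_id)
  have hcon : ∀ z p : E, Measurable fun ω : Cfg E => ind (Con adj (pt ω) z p) := by
    intro z p
    refine measurable_ind ?_
    exact (measurable_const.prodMk (measurable_const.prodMk measurable_id) :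
      Measurable fun ω : Cfg E => ((z, p, ω) : E × E × Cfg E)) hm1
  have hs1 : ∀ p : E, MeasurableSet {a | adj a p} := fun p =>
    (measurable_id.prodMk measurable_const : Measurable fun a : E => ((a, p) : E × E)) hadj
  have hb : ∀ ω : Cfg E, ind (Con adj (insert p (pt ω)) x p) * cnt adj (insert p (pt ω)) x
      ≤ ind (Con adj (pt ω) x p) * (1 + cnt adj (pt ω) x)
        + ind (Con adj (pt ω) p x) * (1 + cnt adj (pt ω) p) := by
    intro ω
    rw [ind_congr (hclb E adj (pt ω) (pt ω) x p).2.2.1,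
      ← ind_congr ((hclb E adj (pt ω) (pt ω) x p).2.2.2.1 hs), ← mul_add]
    exact mul_le_mul_right (cnt_insert_le hclb adj (pt ω) x p) _
  refine (lintegral_mono hb).trans ?_
  have hmm : Measurable fun ω : Cfg E => ind (Con adj (pt ω) x p) * (1 + cnt adj (pt ω) x) :=
    (hcon x p).mul ((hcnt x).const_add 1)
  rw [lintegral_add_left hmm]
  refine add_le_add ?_ ?_
  · exact hpair E ρ adj (fun a => adj a p) X x hadj (hs1 p) hX
  · refine (hpair E ρ adj (fun a => adj a x) X p hadj (hs1 x) hX).trans ?_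
    refine mul_le_mul_right ?_ _
    refine add_le_add ?_ ?_
    · exact (tp_symm hclb ρ adj hs p x).le
    · refine lintegral_mono fun b => ?_
      change tp adj ρ p b * tp adj ρ b x ≤ tp adj ρ x b * tp adj ρ b p
      rw [tp_symm hclb ρ adj hs p b, tp_symm hclb ρ adj hs b x, mul_comm]

theorem mecke_sec (hmecke : MeckeStatement) (hconm : ConMStatement)
    {E : Type} [MeasurableSpace E] [StandardBorelSpace E] (ρ : Measure E) [IsFiniteMeasure ρ]
    [NullSingletonClass ρ] (adj : E → E → Prop) (x : E) (hadj : MAdj adj) :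
    ∫⁻ ω, cnt adj (pt ω) x * cnt adj (pt ω) x ∂PL ρ
      = ∫⁻ p, ∫⁻ ω, ind (Con adj (insert p (pt ω)) x p) * cnt adj (insert p (pt ω)) x ∂PL ρ
          ∂ρ := by
  obtain ⟨hm1, -, hm3, hm4⟩ := hconm E adj hadj
  have hg : Measurable (fun q : E × Cfg E =>
      (fun (p : E) (P : Set E) => ind (Con adj P x p) * cnt adj P x) q.1 (pt q.2)) := by
    refine Measurable.mul ?_ ?_
    · refine measurable_ind ?_
      exact (measurable_const.prodMk (measurable_fst.prodMk measurable_snd) :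
        Measurable fun q : E × Cfg E => ((x, q.1, q.2) : E × E × Cfg E)) hm1
    · exact hm4.comp (measurable_const.prodMk measurable_snd)
  have hM := (hmecke E ρ (fun (p : E) (P : Set E) => ind (Con adj P x p) * cnt adj P x) hg).1
  have hLHS : ∫⁻ ω, cnt adj (pt ω) x * cnt adj (pt ω) x ∂PL ρ
      = ∫⁻ ω, ∑' p : (pt ω : Set E), ind (Con adj (pt ω) x p) * cnt adj (pt ω) x ∂PL ρ := by
    congr 1
    funext ω
    rw [ENNReal.tsum_mul_right]
    rfl
  rw [hLHS, hM]

theorem sec (hpair : PairStatement) (hmecke : MeckeStatement) (hclb : ClbStatement)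
    (hconm : ConMStatement) : SecStatement := by
  intro E _ _ ρ _ _ adj X x hadj hs hX
  rw [mecke_sec hmecke hconm ρ adj x hadj]
  have htp : Measurable fun q : E × E => tp adj ρ q.1 q.2 := (hconm E adj hadj).2.2.1 ρ
  have h1X : 1 ≤ X := le_self_add.trans (hX x)
  have hXi : ∀ b, ∫⁻ y, tp adj ρ b y ∂ρ ≤ X := fun b => le_add_self.trans (hX b)
  obtain ⟨h2, h3, h4⟩ := two_step ρ (fun q : E × E => tp adj ρ q.1 q.2) htp X hXi x
  exact fin_int ρ _ _ _ h2 h3 X h1X (hXi x) h4
    (term_le hpair hclb hconm ρ adj X x hadj hs hX)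

end Pool.Agent.Lib.MP_5349a4_pr.H23
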